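import Mathlib
import Pool.Agent.helper56.SGE.Vx

/-!
# Soundness of the ladder construction

If all faces of the two triangulations of a ladder program can be made positive, then the
program is satisfiable.
-/

set_option autoImplicit false

namespace Pool.Agent.helper3.SGE

open Pool.Agent.helper56.SGE Vx

/-! ### Values of the ports -/

/-- values of the ports, with the free parameters `c` -/
noncomputable def pval (S : Slp) (c : ℕ → ℝ) : ℕ → Bool → ℝ
  | 0, _ => 1
  | j + 1, k =>
    if _h : S.A (j + 1) < j + 1 ∧ S.B (j + 1) < j + 1 then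
      match S.ty (j + 1) with
      | .g => pval S c (S.A (j + 1)) (S.kA (j + 1)) * pval S c (S.B (j + 1)) (S.kB (j + 1)) /
          (1 + pval S c (S.B (j + 1)) (S.kB (j + 1)))
      | .s => if k = true then c (j + 1)
          else pval S c (S.A (j + 1)) (S.kA (j + 1)) / (1 + c (j + 1))
      | .f => pval S c (S.A (j + 1)) (S.kA (j + 1)) *
          (1 + pval S c (S.B (j + 1)) (S.kB (j + 1)))
    else 1
termination_by j => j
decreasing_by all_goals omega

variable {S : Slp}

theorem pval_zero (c : ℕ → ℝ) (k : Bool) : pval S c 0 k = 1 := by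
  rw [pval]

theorem pval_g (h : S.WF) (c : ℕ → ℝ) {j : ℕ} (h1 : 1 ≤ j) (h2 : j ≤ S.N) (ht : S.ty j = .g)
    (k : Bool) :
    pval S c j k = pval S c (S.A j) (S.kA j) * pval S c (S.B j) (S.kB j) /
      (1 + pval S c (S.B j) (S.kB j)) := by
  obtain ⟨i, rfl⟩ : ∃ i, j = i + 1 := ⟨j - 1, by omega⟩
  have hA := h.A_lt _ h1 h2
  have hB := h.B_lt _ h1 h2
  rw [pval, dif_pos ⟨hA, hB⟩]
  simp only [ht]

theorem pval_s (h : S.WF) (c : ℕ → ℝ) {j : ℕ} (h1 : 1 ≤ j) (h2 : j ≤ S.N) (ht : S.ty j = .s)
    (k : Bool) :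
    pval S c j k = if k = true then c j else pval S c (S.A j) (S.kA j) / (1 + c j) := by
  obtain ⟨i, rfl⟩ : ∃ i, j = i + 1 := ⟨j - 1, by omega⟩
  have hA := h.A_lt _ h1 h2
  have hB := h.B_lt _ h1 h2
  rw [pval, dif_pos ⟨hA, hB⟩]
  simp only [ht]

theorem pval_f (h : S.WF) (c : ℕ → ℝ) {j : ℕ} (h1 : 1 ≤ j) (h2 : j ≤ S.N) (ht : S.ty j = .f)
    (k : Bool) :
    pval S c j k = pval S c (S.A j) (S.kA j) * (1 + pval S c (S.B j) (S.kB j)) := by
  obtain ⟨i, rfl⟩ : ∃ i, j = i + 1 := ⟨j - 1, by omega⟩
  have hA := h.A_lt _ h1 h2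
  have hB := h.B_lt _ h1 h2
  rw [pval, dif_pos ⟨hA, hB⟩]
  simp only [ht]

/-! ### Lists -/

theorem pairwise_of_pairs {α : Type*} {R : α → α → Prop} (ht : ∀ a b c, R a b → R b c → R a c) :
    ∀ l : List α, (∀ e ∈ pairs l, R e.1 e.2) → l.Pairwise R
  | [], _ => List.Pairwise.nil
  | [a], _ => List.pairwise_singleton _ _
  | a :: b :: t, h => by
    have hp : pairs (a :: b :: t) = (a, b) :: pairs (b :: t) := rfl
    rw [hp] at h
    have h1 : R a b := h (a, b) List.mem_cons_self
    have h2 : (b :: t).Pairwise R :=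
      pairwise_of_pairs ht (b :: t) (fun e he => h e (List.mem_cons_of_mem _ he))
    refine List.pairwise_cons.2 ⟨?_, h2⟩
    intro c hc
    rcases List.mem_cons.1 hc with rfl | hc
    · exact h1
    · exact ht _ _ _ h1 ((List.pairwise_cons.1 h2).1 c hc)

theorem pairs_sub {α : Type*} (a : α) (l : List α) (b : α) {e : α × α} (he : e ∈ pairs l) :
    e ∈ pairs (a :: l ++ [b]) := by
  have h1 : ∀ l : List α, e ∈ pairs l → e ∈ pairs (l ++ [b]) := by
    intro l
    induction l with
    | nil => intro h; simp [pairs] at h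
    | cons c t ih =>
      cases t with
      | nil => intro h; simp [pairs] at h
      | cons d t =>
        intro h
        have hp : pairs (c :: d :: t) = (c, d) :: pairs (d :: t) := rfl
        have hp' : pairs (c :: d :: t ++ [b]) = (c, d) :: pairs (d :: t ++ [b]) := rfl
        rw [hp] at h
        rw [hp']
        rcases List.mem_cons.1 h with rfl | h
        · exact List.mem_cons_self
        · exact List.mem_cons_of_mem _ (ih h)
  have h2 : ∀ l : List α, e ∈ pairs l → e ∈ pairs (a :: l) := by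
    intro l
    cases l with
    | nil => intro h; simp [pairs] at h
    | cons c t =>
      intro h
      have hp : pairs (a :: c :: t) = (a, c) :: pairs (c :: t) := rfl
      rw [hp]
      exact List.mem_cons_of_mem _ h
  exact h2 _ (h1 _ he)

/-- not one of the corners of the outer face -/
def inn : Vx → Bool
  | O => false
  | H => false
  | V => false
  | _ => true

theorem inn_iff (v : Vx) : inn v = true ↔ v ≠ O ∧ v ≠ H ∧ v ≠ V := by
  cases v <;> simp [inn]

theorem all_map_true {α β : Type*} (l : List α) (f : α → β) (p : β → Bool)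
    (h : ∀ a, p (f a) = true) : (l.map f).all p = true := by
  rw [List.all_eq_true]
  intro b hb
  obtain ⟨a, -, rfl⟩ := List.mem_map.1 hb
  exact h a

theorem inn_blk1 (i : ℕ) : (S.blk1 i).all inn = true := by
  unfold Slp.blk1
  split_ifs <;>
    simp [List.all_append, inn]

theorem inn_blks1 (n : ℕ) : (S.blks1 n).all inn = true := by
  induction n with
  | zero => simp [Slp.blks1, inn]
  | succ n ih =>
    rw [Slp.blks1, List.all_append, inn_blk1, ih]; rfl

theorem inn_anch (n : ℕ) : (Slp.anch n).all inn = true := by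
  induction n with
  | zero => simp [Slp.anch]
  | succ n ih => simp [Slp.anch, inn] at ih ⊢; exact ih

theorem inn_path1 {v : Vx} (hv : v ∈ S.path1) : v ≠ O ∧ v ≠ H ∧ v ≠ V := by
  have h : S.path1.all inn = true := by
    unfold Slp.path1
    rw [List.all_append, List.all_append, inn_blks1, inn_anch]
    simp [Slp.con1, inn]
  exact (inn_iff v).1 (List.all_eq_true.1 h v hv)

theorem inn_blk2 (i : ℕ) : (S.blk2 i).all inn = true := by
  unfold Slp.blk2 Slp.c5 Slp.c4 Slp.c3 Slp.c2
  cases S.ty i <;> simp [inn]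

theorem inn_blks2 (n : ℕ) : (S.blks2 n).all inn = true := by
  induction n with
  | zero => simp [Slp.blks2]
  | succ n ih =>
    rw [Slp.blks2, List.all_append, inn_blk2, ih]; rfl

theorem inn_path2 {v : Vx} (hv : v ∈ S.path2) : v ≠ O ∧ v ≠ H ∧ v ≠ V := by
  have h : S.path2.all inn = true := by
    unfold Slp.path2
    rw [List.all_append, List.all_append, inn_blks2]
    simp [inn]
  exact (inn_iff v).1 (List.all_eq_true.1 h v hv)

theorem blk1_sub {n i : ℕ} (h1 : 1 ≤ i) (h2 : i ≤ n) : (S.blk1 i).Sublist (S.blks1 n) := by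
  induction n with
  | zero => omega
  | succ n ih =>
    rw [Slp.blks1]
    rcases Nat.lt_or_ge i (n + 1) with h | h
    · exact (ih (by omega)).trans (List.sublist_append_right _ _)
    · obtain rfl : i = n + 1 := by omega
      exact List.sublist_append_left _ _

theorem rd0_sub {n : ℕ} : ((S.readers 0 false).reverse.map wr).Sublist (S.blks1 n) := by
  induction n with
  | zero => rw [Slp.blks1]
  | succ n ih =>
    rw [Slp.blks1]
    exact ih.trans (List.sublist_append_right _ _)

theorem blk1_path1 {i : ℕ} (h1 : 1 ≤ i) (h2 : i ≤ S.N) : (S.blk1 i).Sublist S.path1 := by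
  unfold Slp.path1
  rw [List.append_assoc]
  exact (blk1_sub h1 h2).trans (List.sublist_append_left _ _)

theorem con_path1 : ((S.readers 0 false).reverse.map wr ++ S.con1).Sublist S.path1 := by
  unfold Slp.path1
  exact (List.Sublist.append rd0_sub (List.Sublist.refl _)).trans (List.sublist_append_left _ _)

theorem blk2_sub {n i : ℕ} (h1 : 1 ≤ i) (h2 : i ≤ n) : (S.blk2 i).Sublist (S.blks2 n) := by
  induction n with
  | zero => omega
  | succ n ih =>
    rw [Slp.blks2]
    rcases Nat.lt_or_ge i (n + 1) with h | h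
    · exact (ih (by omega)).trans (List.sublist_append_right _ _)
    · obtain rfl : i = n + 1 := by omega
      exact List.sublist_append_left _ _

theorem blk2_path2 {i : ℕ} (h1 : 1 ≤ i) (h2 : i ≤ S.N) : (S.blk2 i).Sublist S.path2 := by
  unfold Slp.path2
  exact ((blk2_sub h1 h2).trans (List.sublist_append_right _ _)).trans
    (List.sublist_append_left _ _)

/-! ### The consequences of positivity -/

/-- What is used of a positive drawing. -/
structure Geo (S : Slp) (x y : Vx → ℝ) : Prop where
  pos : ∀ v ∈ S.path1, 0 < x v ∧ 0 < y v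
  t1 : ∀ m ∈ S.path1, 0 < det3 (hom oF x y (S.L1 m)) (hom oF x y (S.R1 m)) (hom oF x y m)
  t2 : ∀ m ∈ S.path2, m ≠ A1 →
    0 < det3 (hom oF x y (S.L2 m)) (hom oF x y m) (hom oF x y (S.R2 m))
  f1 : 0 < det3 (hom oF x y A1) (hom oF x y J) (hom oF x y M)
  f2 : 0 < det3 (hom oF x y A1) (hom oF x y n) (hom oF x y J)
  dy : S.path1.Pairwise (fun a b => y b < y a)
  dx : S.path2.Pairwise (fun a b => x b < x a)

theorem geo_of_real2 (h : Real2 S.vs oF S.faces1 S.faces2) : ∃ x y, Geo S x y := by
  obtain ⟨x, y, h0, hf, -⟩ := h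
  refine ⟨x, y, ?_⟩
  have hom_in : ∀ v : Vx, v ≠ O → v ≠ H → v ≠ V → hom oF x y v = (1, x v, y v) := by
    intro v h1 h2 h3
    simp [hom, oF, h1, h2, h3]
  have homH : hom oF x y H = (0, 1, 0) := by simp [hom, oF]
  have homV : hom oF x y V = (0, 0, 1) := by simp [hom, oF]
  have m1 : ∀ f ∈ S.faces1, 0 < det3 (hom oF x y f.1) (hom oF x y f.2.1) (hom oF x y f.2.2) :=
    fun f hf' => hf f (List.mem_append.2 (Or.inl hf'))
  have m2 : ∀ f ∈ S.faces2, 0 < det3 (hom oF x y f.1) (hom oF x y f.2.1) (hom oF x y f.2.2) :=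
    fun f hf' => hf f (List.mem_append.2 (Or.inr hf'))
  refine ⟨?_, ?_, ?_, ?_, ?_, ?_, ?_⟩
  · intro v hv
    have hi := inn_path1 hv
    refine h0 v ?_ ?_
    · simp [Slp.vs, hv]
    · simp [Face.verts, oF, hi.1, hi.2.1, hi.2.2]
  · intro m hm
    exact m1 (S.L1 m, S.R1 m, m) (List.mem_append.2 (Or.inl (List.mem_map.2 ⟨m, hm, rfl⟩)))
  · intro m hm hA
    refine m2 (S.L2 m, m, S.R2 m) (List.mem_append.2 (Or.inl (List.mem_append.2
      (Or.inl (List.mem_map.2 ⟨m, ?_, rfl⟩)))))
    simp [hm, hA]
  · refine m2 (A1, J, M) (List.mem_append.2 (Or.inl (List.mem_append.2 (Or.inr ?_))))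
    simp [Slp.five]
  · refine m2 (A1, n, J) (List.mem_append.2 (Or.inl (List.mem_append.2 (Or.inr ?_))))
    simp [Slp.five]
  · refine pairwise_of_pairs (R := fun a b => y b < y a)
      (fun a b c h1 h2 => lt_trans h2 h1) _ ?_
    intro e he
    have h1 := m1 (H, e.1, e.2) (List.mem_append.2 (Or.inr (List.mem_map.2
      ⟨e, pairs_sub _ _ _ he, rfl⟩)))
    have he1 : e.1 ∈ S.path1 := (List.of_mem_zip (a := e.1) (b := e.2) he).1
    have he2 : e.2 ∈ S.path1 := List.mem_of_mem_tail (List.of_mem_zip (a := e.1) (b := e.2) he).2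
    have i1 := inn_path1 he1
    have i2 := inn_path1 he2
    simp only [homH] at h1
    rw [hom_in _ i1.1 i1.2.1 i1.2.2, hom_in _ i2.1 i2.2.1 i2.2.2] at h1
    simp only [det3] at h1
    linarith
  · refine pairwise_of_pairs (R := fun a b => x b < x a)
      (fun a b c h1 h2 => lt_trans h2 h1) _ ?_
    intro e he
    have h1 := m2 (V, e.2, e.1) (List.mem_append.2 (Or.inr (List.mem_map.2
      ⟨e, pairs_sub _ _ _ he, rfl⟩)))
    have he1 : e.1 ∈ S.path2 := (List.of_mem_zip (a := e.1) (b := e.2) he).1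
    have he2 : e.2 ∈ S.path2 := List.mem_of_mem_tail (List.of_mem_zip (a := e.1) (b := e.2) he).2
    have i1 := inn_path2 he1
    have i2 := inn_path2 he2
    simp only [homV] at h1
    rw [hom_in _ i1.1 i1.2.1 i1.2.2, hom_in _ i2.1 i2.2.1 i2.2.2] at h1
    simp only [det3] at h1
    linarith

/-! ### Real inequalities -/

/-- the face `(L, M, R)` with `M` above: columns against rows -/
theorem col_row {xr xm xl yr ym yl P : ℝ} (hx2 : xl < xm) (hy2 : yl < ym)
    (hr : P * (ym - yl) < yr - ym)
    (hf : 0 < (xm - xr) * (yl - yr) - (ym - yr) * (xl - xr)) :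
    P * (xm - xl) < xr - xm := by
  have h1 : 0 < (xr - xm) * (ym - yl) - (yr - ym) * (xm - xl) := by nlinarith
  have h2 : P * (ym - yl) * (xm - xl) < (yr - ym) * (xm - xl) :=
    mul_lt_mul_of_pos_right hr (by linarith)
  have h3 : P * (xm - xl) * (ym - yl) < (xr - xm) * (ym - yl) := by nlinarith
  exact lt_of_mul_lt_mul_right h3 (by linarith)

/-- the face `(p1, r4, q)` : rows against columns -/
theorem row_col {xp xq xr yp yq yr P : ℝ} (hx2 : xr < xq) (hy2 : yr < yq)
    (hr : P * (xq - xr) < xp - xq)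
    (hf : 0 < (xr - xp) * (yq - yp) - (yr - yp) * (xq - xp)) :
    P * (yq - yr) < yp - yq := by
  have h1 : (xp - xq) * (yq - yr) < (yp - yq) * (xq - xr) := by nlinarith
  have h2 : P * (xq - xr) * (yq - yr) < (xp - xq) * (yq - yr) :=
    mul_lt_mul_of_pos_right hr (by linarith)
  have h3 : P * (yq - yr) * (xq - xr) < (yp - yq) * (xq - xr) := by nlinarith
  exact lt_of_mul_lt_mul_right h3 (by linarith)

/-- the face `(p, X, q)` with `q` between: inverse ratio -/
theorem row_inv {xp xq xX yp yq yX P : ℝ} (hx1 : xp < xq) (hy1 : yq < yp)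
    (hr : P * (xq - xp) < xX - xq)
    (hf : 0 < (xX - xp) * (yq - yp) - (yX - yp) * (xq - xp)) :
    P * (yp - yq) < yq - yX := by
  have h1 : (yp - yq) * (xX - xq) < (yq - yX) * (xq - xp) := by nlinarith
  have h2 : P * (xq - xp) * (yp - yq) < (xX - xq) * (yp - yq) :=
    mul_lt_mul_of_pos_right hr (by linarith)
  have h3 : P * (yp - yq) * (xq - xp) < (yq - yX) * (xq - xp) := by nlinarith
  exact lt_of_mul_lt_mul_right h3 (by linarith)

theorem arc_ineq {ux uy vx vy wx wy mx my : ℝ} (hu : 0 < uy) (hv : 0 < vy) (hw : 0 < wy)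
    (hm : 0 < my) (f1 : 0 < mx * uy - ux * my) (f2 : 0 < vy * ux - vx * uy)
    (f3 : 0 < wy * vx - wx * vy) : 0 < (uy + vy + wy) * mx - (ux + vx + wx) * my := by
  have h1 : 0 < vy * (wy * ux - wx * uy) := by
    have e : vy * (wy * ux - wx * uy) = wy * (vy * ux - vx * uy) + uy * (wy * vx - wx * vy) := by
      ring
    rw [e]; positivity
  have h2 : 0 < wy * ux - wx * uy := pos_of_mul_pos_right h1 hv.le
  have h3 : 0 < uy * ((uy + vy + wy) * mx - (ux + vx + wx) * my) := by
    have e : uy * ((uy + vy + wy) * mx - (ux + vx + wx) * my) =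
      (uy + vy + wy) * (mx * uy - ux * my) +
        my * ((vy * ux - vx * uy) + (wy * ux - wx * uy)) := by ring
    rw [e]; positivity
  exact pos_of_mul_pos_right h3 hu.le

/-! ### Orders -/

theorem six_sub {i : ℕ} (h1 : 1 ≤ i) (h2 : i ≤ S.N) :
    [p1 i, q2 i, X i, q3 i, Y i, r4 i].Sublist S.path1 := by
  refine List.Sublist.trans ?_ (blk1_path1 h1 h2)
  unfold Slp.blk1
  split_ifs with h3 h4
  · (repeat (first | exact List.nil_sublist _ | exact List.Sublist.refl _ | apply List.Sublist.cons_cons | apply List.Sublist.cons))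
  · have : [p1 i, q2 i, X i, q3 i, Y i, r4 i] =
      [] ++ [p1 i, q2 i, X i] ++ [] ++ [] ++ [q3 i, Y i, r4 i] := rfl
    rw [this]
    exact ((((List.nil_sublist _).append (List.Sublist.refl _)).append
      (List.nil_sublist _)).append (List.nil_sublist _)).append (List.Sublist.refl _)
  · have : [p1 i, q2 i, X i, q3 i, Y i, r4 i] =
      [] ++ [p1 i] ++ [] ++ [q2 i] ++ [] ++ [] ++ [X i, q3 i] ++ [] ++ [] ++ [Y i, r4 i] := rfl
    rw [this]
    exact ((((((((List.nil_sublist _).append (List.Sublist.refl _)).append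
      (List.nil_sublist _)).append (List.Sublist.refl _)).append (List.nil_sublist _)).append
      (List.nil_sublist _)).append (List.Sublist.refl _)).append (List.nil_sublist _)).append
      (List.nil_sublist _) |>.append (List.Sublist.refl _)

theorem order_y {x y : Vx → ℝ} (g : Geo S x y) {i : ℕ} (h1 : 1 ≤ i) (h2 : i ≤ S.N) :
    y (q2 i) < y (p1 i) ∧ y (X i) < y (q2 i) ∧ y (q3 i) < y (X i) ∧ y (Y i) < y (q3 i) ∧
      y (r4 i) < y (Y i) := by
  have h := g.dy.sublist (six_sub h1 h2)
  simp only [List.pairwise_cons, List.mem_cons, List.not_mem_nil, or_false, forall_eq_or_imp,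
    forall_eq] at h
  tauto

/-- rows of the ports -/
def rT (i : ℕ) (k : Bool) : Vx := if i = 0 then p0 else if k = true then p1 i else q2 i
def rM (S : Slp) (i : ℕ) (k : Bool) : Vx :=
  if i = 0 then q0p else if k = false then q3 i else if S.ty i = .f then X i else q2 i
def rB (i : ℕ) (k : Bool) : Vx := if i = 0 then r0 else if k = false then r4 i else q3 i

theorem wire_rows {x y : Vx → ℝ} (g : Geo S x y) (hS : S.WF) {w : ℕ} (h1 : 2 ≤ w)
    (h2 : w ≤ 2 * S.N + 1) :
    y (rT (S.src w) (S.kind w)) < y (wr w) ∧ y (wm w) < y (rM S (S.src w) (S.kind w)) ∧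
      y (rB (S.src w) (S.kind w)) < y (wl w) ∧ y (wl w) < y (wm w) ∧ S.src w < w / 2 ∧
      S.OkPort (S.src w) (S.kind w) := by
  have hj1 : 1 ≤ w / 2 := by omega
  have hj2 : w / 2 ≤ S.N := by omega
  have hlt : S.src w < w / 2 := by
    unfold Slp.src
    split_ifs
    · exact hS.A_lt _ hj1 hj2
    · exact hS.B_lt _ hj1 hj2
  have hok : S.OkPort (S.src w) (S.kind w) := by
    unfold Slp.src Slp.kind
    split_ifs
    · exact hS.okA _ hj1 hj2
    · exact hS.okB _ hj1 hj2
  have hmem : w ∈ S.readers (S.src w) (S.kind w) := by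
    unfold Slp.readers
    rw [List.mem_filter, List.mem_range]
    refine ⟨by omega, ?_⟩
    simp [h1]
  have hwr : [wr w].Sublist ((S.readers (S.src w) (S.kind w)).reverse.map wr) :=
    List.singleton_sublist.2 (List.mem_map.2 ⟨w, List.mem_reverse.2 hmem, rfl⟩)
  have hwm : [wm w].Sublist ((S.readers (S.src w) (S.kind w)).map wm) :=
    List.singleton_sublist.2 (List.mem_map.2 ⟨w, hmem, rfl⟩)
  have hwl : [wl w].Sublist ((S.readers (S.src w) (S.kind w)).reverse.map wl) :=
    List.singleton_sublist.2 (List.mem_map.2 ⟨w, List.mem_reverse.2 hmem, rfl⟩)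
  have hs : [wr w, rT (S.src w) (S.kind w), rM S (S.src w) (S.kind w), wm w, wl w,
      rB (S.src w) (S.kind w)].Sublist S.path1 := by
    generalize S.src w = i at *
    generalize S.kind w = k at *
    rcases hok with ⟨rfl, rfl⟩ | ⟨h0, hk⟩
    · refine List.Sublist.trans ?_ con_path1
      have : [wr w, rT 0 false, rM S 0 false, wm w, wl w, rB 0 false] =
        [wr w] ++ ([p0, q0p] ++ [wm w] ++ [] ++ [wl w] ++ [r0]) := by simp [rT, rM, rB]
      rw [this]
      refine hwr.append ((((List.Sublist.append ?_ hwm).append ?_).append hwl).append ?_) <;>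
        (repeat (first | exact List.nil_sublist _ | exact List.Sublist.refl _ | apply List.Sublist.cons_cons | apply List.Sublist.cons))
    · refine List.Sublist.trans ?_ (blk1_path1 (by omega : 1 ≤ i) (by omega))
      unfold Slp.blk1
      rw [if_neg (by omega)]
      rcases hk with ⟨ht, rfl⟩ | ⟨ht, rfl⟩ | ht
      · rw [if_neg (by rw [ht]; simp)]
        have : [wr w, rT i false, rM S i false, wm w, wl w, rB i false] =
          [] ++ [] ++ [wr w] ++ [q2 i] ++ [] ++ [] ++ [q3 i] ++ [wm w] ++ [wl w] ++ [r4 i] := by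
          simp [rT, rM, rB, h0]
        rw [this]
        refine (((((List.Sublist.append (List.Sublist.append (List.Sublist.append ?_ ?_) hwr)
          ?_).append ?_).append ?_).append ?_).append hwm).append hwl |>.append ?_ <;> (repeat (first | exact List.nil_sublist _ | exact List.Sublist.refl _ | apply List.Sublist.cons_cons | apply List.Sublist.cons))
      · rw [if_pos ht]
        have : [wr w, rT i true, rM S i true, wm w, wl w, rB i true] =
          [wr w] ++ [p1 i, X i] ++ [wm w] ++ [wl w] ++ [q3 i] := by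
          simp [rT, rM, rB, h0, ht]
        rw [this]
        refine (((hwr.append ?_).append hwm).append hwl).append ?_ <;> (repeat (first | exact List.nil_sublist _ | exact List.Sublist.refl _ | apply List.Sublist.cons_cons | apply List.Sublist.cons))
      · rw [if_neg (by rw [ht]; simp)]
        cases k with
        | false =>
          have : [wr w, rT i false, rM S i false, wm w, wl w, rB i false] =
            [] ++ [] ++ [wr w] ++ [q2 i] ++ [] ++ [] ++ [q3 i] ++ [wm w] ++ [wl w] ++ [r4 i] := by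
            simp [rT, rM, rB, h0]
          rw [this]
          refine (((((List.Sublist.append (List.Sublist.append (List.Sublist.append ?_ ?_) hwr)
            ?_).append ?_).append ?_).append ?_).append hwm).append hwl |>.append ?_ <;> (repeat (first | exact List.nil_sublist _ | exact List.Sublist.refl _ | apply List.Sublist.cons_cons | apply List.Sublist.cons))
        | true =>
          have : [wr w, rT i true, rM S i true, wm w, wl w, rB i true] =
            [wr w] ++ [p1 i] ++ [] ++ [q2 i] ++ [wm w] ++ [wl w] ++ [q3 i] ++ [] ++ [] ++ [] := by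
            simp [rT, rM, rB, h0, ht]
          rw [this]
          refine ((((((hwr.append ?_).append ?_).append ?_).append hwm).append hwl).append
            ?_).append ?_ |>.append ?_ |>.append ?_ <;> (repeat (first | exact List.nil_sublist _ | exact List.Sublist.refl _ | apply List.Sublist.cons_cons | apply List.Sublist.cons))
  have h := g.dy.sublist hs
  simp only [List.pairwise_cons, List.mem_cons, List.not_mem_nil, or_false, forall_eq_or_imp,
    forall_eq] at h
  exact ⟨by tauto, by tauto, by tauto, by tauto, hlt, hok⟩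

theorem wire_col {x y : Vx → ℝ} (g : Geo S x y) (hS : S.WF) {w : ℕ} (h1 : 2 ≤ w)
    (h2 : w ≤ 2 * S.N + 1) {P : ℝ} (hP : 0 < P)
    (hr : P * (y (rM S (S.src w) (S.kind w)) - y (rB (S.src w) (S.kind w))) ≤
      y (rT (S.src w) (S.kind w)) - y (rM S (S.src w) (S.kind w))) :
    P * (x (wm w) - x (wl w)) < x (wr w) - x (wm w) := by
  obtain ⟨r1, r2, r3, r4, -, -⟩ := wire_rows g hS h1 h2
  have hj1 : 1 ≤ w / 2 := by omega
  have hj2 : w / 2 ≤ S.N := by omega
  have hsub := blk2_path2 (S := S) hj1 hj2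
  have hs : [wr w, wm w, wl w].Sublist (S.blk2 (w / 2)) := by
    unfold Slp.blk2
    rcases Nat.mod_two_eq_zero_or_one w with h | h
    · have e : 2 * (w / 2) = w := by omega
      have : [wr w, wm w, wl w] = [] ++ [] ++ [] ++ [wr w, wm w, wl w] := rfl
      rw [this, e]
      refine ((List.Sublist.append ?_ ?_).append ?_).append ?_ <;> (repeat (first | exact List.nil_sublist _ | exact List.Sublist.refl _ | apply List.Sublist.cons_cons | apply List.Sublist.cons))
    · have e : 2 * (w / 2) + 1 = w := by omega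
      have : [wr w, wm w, wl w] = [] ++ [wr w, wm w] ++ [] ++ [wl w] := rfl
      rw [this, e]
      refine ((List.Sublist.append ?_ ?_).append ?_).append ?_ <;> (repeat (first | exact List.nil_sublist _ | exact List.Sublist.refl _ | apply List.Sublist.cons_cons | apply List.Sublist.cons))
  have hx := g.dx.sublist (hs.trans hsub)
  simp only [List.pairwise_cons, List.mem_cons, List.not_mem_nil, or_false, forall_eq_or_imp,
    forall_eq] at hx
  have hm : wm w ∈ S.path2 := (hs.trans hsub).subset (by simp)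
  have hf := g.t2 (wm w) hm (by simp)
  simp only [Slp.L2, Slp.R2, hom, oF, reduceCtorEq, if_false, det3] at hf
  refine col_row (yr := y (wr w)) (ym := y (wm w)) (yl := y (wl w)) (by tauto) r4 ?_
    (by linarith)
  have : P * (y (wm w) - y (wl w)) <
      P * (y (rM S (S.src w) (S.kind w)) - y (rB (S.src w) (S.kind w))) :=
    mul_lt_mul_of_pos_left (by linarith) hP
  linarith

theorem block_A {x y : Vx → ℝ} (g : Geo S x y) {j : ℕ} (h1 : 1 ≤ j)
    (h2 : j ≤ S.N) (ht : S.ty j ≠ .f) {a : ℝ} (ha : 0 < a)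
    (hK : a * (x (wm (2 * j)) - x (wl (2 * j))) < x (wr (2 * j)) - x (wm (2 * j))) :
    a * (y (q3 j) - y (r4 j)) < y (p1 j) - y (q3 j) := by
  obtain ⟨o1, o2, o3, o4, o5⟩ := order_y g h1 h2
  have hs : [p1 j, wr (2 * j), wm (2 * j), q3 j, r4 j, wl (2 * j)].Sublist (S.blk2 j) := by
    unfold Slp.blk2 Slp.c5 Slp.c4 Slp.c3 Slp.c2
    cases hj : S.ty j with
    | g => simp only [List.cons_append, List.nil_append]; (repeat (first | exact List.nil_sublist _ | exact List.Sublist.refl _ | apply List.Sublist.cons_cons | apply List.Sublist.cons))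
    | s => simp only [List.cons_append, List.nil_append]; (repeat (first | exact List.nil_sublist _ | exact List.Sublist.refl _ | apply List.Sublist.cons_cons | apply List.Sublist.cons))
    | f => exact absurd hj ht
  have hx := g.dx.sublist (hs.trans (blk2_path2 h1 h2))
  simp only [List.pairwise_cons, List.mem_cons, List.not_mem_nil, or_false, forall_eq_or_imp,
    forall_eq] at hx
  obtain ⟨⟨a1, a2, a3, a4, a5⟩, ⟨b1, b2, b3, b4⟩, ⟨c1, c2, c3⟩, ⟨d1, d2⟩, e1, -⟩ := hx
  have hm : q3 j ∈ S.path1 := (six_sub h1 h2).subset (by simp)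
  have hf := g.t1 (q3 j) hm
  simp only [Slp.L1, Slp.R1, if_neg ht, hom, oF, reduceCtorEq, if_false, det3] at hf
  refine row_col (xp := x (p1 j)) (xq := x (q3 j)) (xr := x (r4 j)) d1 (by linarith) ?_
    (by linarith)
  have : a * (x (q3 j) - x (r4 j)) < a * (x (wm (2 * j)) - x (wl (2 * j))) :=
    mul_lt_mul_of_pos_left (by linarith) ha
  linarith

theorem block_g {x y : Vx → ℝ} (g : Geo S x y) {j : ℕ} (h1 : 1 ≤ j)
    (h2 : j ≤ S.N) (ht : S.ty j = .g) {a b : ℝ} (ha : 0 < a) (hb : 0 < b)
    (hK : a * (x (wm (2 * j)) - x (wl (2 * j))) < x (wr (2 * j)) - x (wm (2 * j)))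
    (hL : b * (x (wm (2 * j + 1)) - x (wl (2 * j + 1))) <
      x (wr (2 * j + 1)) - x (wm (2 * j + 1))) :
    a * b / (1 + b) * (y (q3 j) - y (r4 j)) ≤ y (q2 j) - y (q3 j) := by
  obtain ⟨o1, o2, o3, o4, o5⟩ := order_y g h1 h2
  have hA := block_A g h1 h2 (by rw [ht]; simp) ha hK
  have hs : [X j, wr (2 * j + 1), wm (2 * j + 1), q2 j, p1 j, wl (2 * j + 1)].Sublist
      (S.blk2 j) := by
    unfold Slp.blk2 Slp.c5 Slp.c4 Slp.c3 Slp.c2
    rw [ht]
    simp only [List.cons_append, List.nil_append]; (repeat (first | exact List.nil_sublist _ | exact List.Sublist.refl _ | apply List.Sublist.cons_cons | apply List.Sublist.cons))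
  have hx := g.dx.sublist (hs.trans (blk2_path2 h1 h2))
  simp only [List.pairwise_cons, List.mem_cons, List.not_mem_nil, or_false, forall_eq_or_imp,
    forall_eq] at hx
  obtain ⟨⟨a1, a2, a3, a4, a5⟩, ⟨b1, b2, b3, b4⟩, ⟨c1, c2, c3⟩, ⟨d1, d2⟩, e1, -⟩ := hx
  have hm : q2 j ∈ S.path1 := (six_sub h1 h2).subset (by simp)
  have hf := g.t1 (q2 j) hm
  simp only [Slp.L1, Slp.R1, ht, hom, oF, reduceCtorEq, if_false, det3] at hf
  have hB : b * (y (p1 j) - y (q2 j)) < y (q2 j) - y (X j) := by
    refine row_inv (xp := x (p1 j)) (xq := x (q2 j)) (xX := x (X j)) d1 o1 ?_ (by linarith)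
    have : b * (x (q2 j) - x (p1 j)) < b * (x (wm (2 * j + 1)) - x (wl (2 * j + 1))) :=
      mul_lt_mul_of_pos_left (by linarith) hb
    linarith
  rw [div_mul_eq_mul_div, div_le_iff₀ (by linarith)]
  have h3 : b * (a * (y (q3 j) - y (r4 j))) < b * (y (p1 j) - y (q3 j)) :=
    mul_lt_mul_of_pos_left hA hb
  nlinarith

theorem block_f {x y : Vx → ℝ} (g : Geo S x y) {j : ℕ} (h1 : 1 ≤ j)
    (h2 : j ≤ S.N) (ht : S.ty j = .f) {a b : ℝ} (ha : 0 < a) (hb : 0 < b)
    (hK : a * (x (wm (2 * j)) - x (wl (2 * j))) < x (wr (2 * j)) - x (wm (2 * j)))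
    (hL : b * (x (wm (2 * j + 1)) - x (wl (2 * j + 1))) <
      x (wr (2 * j + 1)) - x (wm (2 * j + 1))) :
    a * (1 + b) * (y (X j) - y (q3 j)) ≤ y (p1 j) - y (X j) := by
  obtain ⟨o1, o2, o3, o4, o5⟩ := order_y g h1 h2
  have hs : [Y j, wr (2 * j + 1), wm (2 * j + 1), q3 j, p1 j, X j, wl (2 * j + 1), wr (2 * j),
      wm (2 * j), q2 j, r4 j, wl (2 * j)].Sublist (S.blk2 j) := by
    unfold Slp.blk2 Slp.c5 Slp.c4 Slp.c3 Slp.c2
    rw [ht]
    simp only [List.cons_append, List.nil_append]; (repeat (first | exact List.nil_sublist _ | exact List.Sublist.refl _ | apply List.Sublist.cons_cons | apply List.Sublist.cons))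
  have hx := g.dx.sublist (hs.trans (blk2_path2 h1 h2))
  simp only [List.pairwise_cons, List.mem_cons, List.not_mem_nil, or_false, forall_eq_or_imp,
    forall_eq] at hx
  obtain ⟨⟨y1, -⟩, -, ⟨m1, -⟩, ⟨-, q1, -⟩, ⟨-, -, s1, -, s2, -⟩, ⟨t1, -⟩, -, -, ⟨v1, -⟩, ⟨w1, -⟩,
    z1, -⟩ := hx
  have hm2 : q2 j ∈ S.path1 := (six_sub h1 h2).subset (by simp)
  have hf2 := g.t1 (q2 j) hm2
  simp only [Slp.L1, Slp.R1, ht, if_true, hom, oF, reduceCtorEq, if_false, det3] at hf2
  have hm3 : q3 j ∈ S.path1 := (six_sub h1 h2).subset (by simp)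
  have hf3 := g.t1 (q3 j) hm3
  simp only [Slp.L1, Slp.R1, ht, if_true, hom, oF, reduceCtorEq, if_false, det3] at hf3
  have hA : a * (y (q2 j) - y (r4 j)) < y (p1 j) - y (q2 j) := by
    refine row_col (xp := x (p1 j)) (xq := x (q2 j)) (xr := x (r4 j)) w1
      (by linarith) ?_ (by linarith)
    have e1 : x (q2 j) < x (wm (2 * j)) := v1
    have e2 : x (wl (2 * j)) < x (r4 j) := z1
    have e3 : x (wr (2 * j)) < x (p1 j) := s1
    have : a * (x (q2 j) - x (r4 j)) < a * (x (wm (2 * j)) - x (wl (2 * j))) :=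
      mul_lt_mul_of_pos_left (by linarith) ha
    linarith
  have hB : b * (y (X j) - y (q3 j)) < y (q3 j) - y (Y j) := by
    have e1 : x (q3 j) < x (wm (2 * j + 1)) := m1
    have e2 : x (wl (2 * j + 1)) < x (X j) := t1
    have e3 : x (wr (2 * j + 1)) < x (Y j) := y1
    refine row_inv (xp := x (X j)) (xq := x (q3 j)) (xX := x (Y j)) q1 (by linarith) ?_
      (by linarith)
    have : b * (x (q3 j) - x (X j)) < b * (x (wm (2 * j + 1)) - x (wl (2 * j + 1))) :=
      mul_lt_mul_of_pos_left (by linarith) hb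
    linarith
  have h3 : a * ((1 + b) * (y (X j) - y (q3 j))) < a * (y (q2 j) - y (r4 j)) :=
    mul_lt_mul_of_pos_left (by nlinarith) ha
  nlinarith

theorem block_0 {x y : Vx → ℝ} (g : Geo S x y) :
    1 * (y q0p - y r0) ≤ y p0 - y q0p := by
  have hsub := con_path1 (S := S)
  have hs : [p0, q0, q0p, r0].Sublist S.path1 := by
    refine List.Sublist.trans ?_ hsub
    have : [p0, q0, q0p, r0] = [] ++ ([p0, q0, q0p] ++ [] ++ [] ++ [] ++ [r0]) := rfl
    rw [this]
    refine List.Sublist.append ?_ ((((List.Sublist.append ?_ ?_).append ?_).append ?_).append ?_)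
      <;> (repeat (first | exact List.nil_sublist _ | exact List.Sublist.refl _ | apply List.Sublist.cons_cons | apply List.Sublist.cons))
  have hy := g.dy.sublist hs
  simp only [List.pairwise_cons, List.mem_cons, List.not_mem_nil, or_false, forall_eq_or_imp,
    forall_eq] at hy
  obtain ⟨⟨y1, y2, y3⟩, ⟨y4, y5⟩, y6, -⟩ := hy
  have hs2 : [p0, q0p, s0, r0, q0].Sublist S.path2 := List.sublist_append_right _ _
  have hx := g.dx.sublist hs2
  simp only [List.pairwise_cons, List.mem_cons, List.not_mem_nil, or_false, forall_eq_or_imp,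
    forall_eq] at hx
  obtain ⟨⟨x1, x2, x3, x4⟩, ⟨x5, x6, x7⟩, ⟨x8, x9⟩, x10, -⟩ := hx
  have hf1 := g.t1 q0 (hs.subset (by simp))
  simp only [Slp.L1, Slp.R1, hom, oF, reduceCtorEq, if_false, if_true, det3] at hf1
  have hf2 := g.t2 r0 (hs2.subset (by simp)) (by simp)
  simp only [Slp.L2, Slp.R2, hom, oF, reduceCtorEq, if_false, if_true, det3] at hf2
  have p1 := g.pos p0 (hs.subset (by simp))
  have p2 := g.pos q0 (hs.subset (by simp))
  have p3 := g.pos q0p (hs.subset (by simp))
  have p4 := g.pos r0 (hs.subset (by simp))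
  -- y p0 * x q0 > x p0 * y q0, y r0 * x q0p > x r0 * y q0p
  have h1 : x p0 * y q0 < y p0 * x q0 := by linarith
  have h2 : x r0 * y q0p < y r0 * x q0p := by linarith
  have h3 : x q0p * y q0p < y p0 * x r0 := by nlinarith
  have h4 : y q0p * y q0p < y p0 * y r0 := by
    have h5 : y q0p * y q0p * x r0 < y p0 * y r0 * x r0 := by nlinarith
    exact lt_of_mul_lt_mul_right h5 p4.1.le
  nlinarith

theorem block_N {x y : Vx → ℝ} (g : Geo S x y) (hS : S.WF) :
    y (q2 S.N) - y (q3 S.N) < y (q3 S.N) - y (r4 S.N) := by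
  have hs : [A2, A1, q2 S.N, q3 S.N, M, J, n, B2, B1, r4 S.N].Sublist S.path1 := by
    refine List.Sublist.trans ?_ (blk1_path1 hS.one_le le_rfl)
    unfold Slp.blk1
    rw [if_pos rfl]
    (repeat (first | exact List.nil_sublist _ | exact List.Sublist.refl _ | apply List.Sublist.cons_cons | apply List.Sublist.cons))
  have hy := g.dy.sublist hs
  simp only [List.pairwise_cons, List.mem_cons, List.not_mem_nil, or_false, forall_eq_or_imp,
    forall_eq] at hy
  obtain ⟨⟨a1, a2, a3, a4, a5, a6, a7, a8, a9⟩, ⟨b1, b2, b3, b4, b5, b6, b7, b8⟩,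
    ⟨c1, c2, c3, c4, c5, c6, c7⟩, ⟨d1, d2, d3, d4, d5, d6⟩, ⟨e1, e2, e3, e4, e5⟩,
    ⟨f1, f2, f3, f4⟩, ⟨g1, g2, g3⟩, ⟨i1, i2⟩, j1, -⟩ := hy
  have hs2 : [anc, B2, A2, M, A1, B1].Sublist S.path2 := by
    unfold Slp.path2
    exact (List.sublist_append_left _ _).trans (List.sublist_append_left _ _)
  have hx := g.dx.sublist hs2
  simp only [List.pairwise_cons, List.mem_cons, List.not_mem_nil, or_false, forall_eq_or_imp,
    forall_eq] at hx
  obtain ⟨-, ⟨u1, u2, u3, u4⟩, ⟨v1, v2, v3⟩, ⟨w1, w2⟩, z1, -⟩ := hx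
  have hf1 := g.f1
  have hf2 := g.f2
  have hf3 := g.t1 n (hs.subset (by simp))
  have hf4 := g.t2 M (hs2.subset (by simp)) (by simp)
  simp only [Slp.L1, Slp.R1, Slp.L2, Slp.R2, hom, oF, reduceCtorEq, if_false, det3]
    at hf1 hf2 hf3 hf4
  have harc := arc_ineq (ux := x J - x A1) (uy := y A1 - y J) (vx := x n - x J)
    (vy := y J - y n) (wx := x B2 - x n) (wy := y n - y B2) (mx := x M - x A1)
    (my := y A1 - y M) (by linarith) (by linarith) (by linarith) (by linarith) (by linarith)
    (by linarith) (by linarith)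
  by_contra hc
  rw [not_lt] at hc
  have k1 : y M - y B2 < y A1 - y M := by linarith
  have k2 : y M - y B1 < y A2 - y M := by linarith
  have l1 : (y A1 - y M) * (x B2 - x M) < (y M - y B2) * (x M - x A1) := by linarith
  have l2 : (y A2 - y M) * (x M - x B1) < (y M - y B1) * (x A2 - x M) := by linarith
  have m1 : x B2 - x M < x M - x A1 := by
    by_contra hm
    rw [not_lt] at hm
    have : (y M - y B2) * (x M - x A1) ≤ (y A1 - y M) * (x B2 - x M) := by
      apply mul_le_mul k1.le hm <;> linarith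
    linarith
  have m2 : x M - x B1 < x A2 - x M := by
    by_contra hm
    rw [not_lt] at hm
    have : (y M - y B1) * (x A2 - x M) ≤ (y A2 - y M) * (x M - x B1) := by
      apply mul_le_mul k2.le hm <;> linarith
    linarith
  linarith

theorem G1 (S : Slp) (h : S.WF) : Real2 S.vs oF S.faces1 S.faces2 → S.Sat := by
  intro hR
  obtain ⟨x, y, g⟩ := geo_of_real2 hR
  set c : ℕ → ℝ := fun j => (y (p1 j) - y (q2 j)) / (y (q2 j) - y (q3 j)) with hc
  have hcpos : ∀ j, 1 ≤ j → j ≤ S.N → 0 < c j := by
    intro j h1 h2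
    obtain ⟨o1, o2, o3, o4, o5⟩ := order_y g h1 h2
    exact div_pos (by linarith) (by linarith)
  have hcval : ∀ j, 1 ≤ j → j ≤ S.N →
      c j * (y (q2 j) - y (q3 j)) = y (p1 j) - y (q2 j) := by
    intro j h1 h2
    obtain ⟨o1, o2, o3, o4, o5⟩ := order_y g h1 h2
    exact div_mul_cancel₀ _ (by linarith)
  have key : ∀ i, i ≤ S.N → ∀ k, S.OkPort i k → 0 < pval S c i k ∧
      pval S c i k * (y (rM S i k) - y (rB i k)) ≤ y (rT i k) - y (rM S i k) := by
    intro i
    induction i using Nat.strong_induction_on with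
    | _ i ih =>
      intro hi k hk
      rcases Nat.eq_zero_or_pos i with rfl | hpos
      · rcases hk with ⟨-, rfl⟩ | ⟨h0, -⟩
        · rw [pval_zero]
          refine ⟨one_pos, ?_⟩
          have := block_0 g
          simpa [rM, rB, rT] using this
        · exact absurd rfl h0
      · have hA := h.A_lt i hpos hi
        have hB := h.B_lt i hpos hi
        have kA := ih _ hA (by omega) _ (h.okA i hpos hi)
        have kB := ih _ hB (by omega) _ (h.okB i hpos hi)
        have cA := wire_col g h (w := 2 * i) (by omega) (by omega)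
          (P := pval S c (S.A i) (S.kA i)) kA.1
        have e1 : S.src (2 * i) = S.A i := by
          have : 2 * i / 2 = i := by omega
          simp [Slp.src]
        have e2 : S.kind (2 * i) = S.kA i := by
          have : 2 * i / 2 = i := by omega
          simp [Slp.kind]
        rw [e1, e2] at cA
        have cA := cA kA.2
        have cB := wire_col g h (w := 2 * i + 1) (by omega) (by omega)
          (P := pval S c (S.B i) (S.kB i)) kB.1
        have e3 : S.src (2 * i + 1) = S.B i := by
          have h1 : (2 * i + 1) / 2 = i := by omega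
          have h2 : (2 * i + 1) % 2 ≠ 0 := by omega
          unfold Slp.src
          rw [if_neg h2, h1]
        have e4 : S.kind (2 * i + 1) = S.kB i := by
          have h1 : (2 * i + 1) / 2 = i := by omega
          have h2 : (2 * i + 1) % 2 ≠ 0 := by omega
          unfold Slp.kind
          rw [if_neg h2, h1]
        rw [e3, e4] at cB
        have cB := cB kB.2
        have pA := kA.1
        have pB := kB.1
        have i0 : i ≠ 0 := by omega
        rcases hk with ⟨h0, -⟩ | ⟨-, hk⟩
        · omega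
        · rcases hk with ⟨ht, rfl⟩ | ⟨ht, rfl⟩ | ht
          · rw [pval_g h c hpos hi ht]
            refine ⟨by positivity, ?_⟩
            have := block_g g hpos hi ht pA pB cA cB
            simpa [rM, rB, rT, i0] using this
          · rw [pval_f h c hpos hi ht]
            refine ⟨by positivity, ?_⟩
            have := block_f g hpos hi ht pA pB cA cB
            simpa [rM, rB, rT, i0, ht] using this
          · rw [pval_s h c hpos hi ht]
            have cp := hcpos i hpos hi
            have cv := hcval i hpos hi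
            cases k with
            | true =>
              rw [if_pos rfl]
              refine ⟨cp, ?_⟩
              simpa [rM, rB, rT, i0, ht] using cv.le
            | false =>
              rw [if_neg (by simp)]
              refine ⟨by positivity, ?_⟩
              have hAq := block_A g hpos hi (by rw [ht]; simp) pA cA
              have : pval S c (S.A i) (S.kA i) / (1 + c i) * (y (q3 i) - y (r4 i)) ≤
                  y (q2 i) - y (q3 i) := by
                rw [div_mul_eq_mul_div, div_le_iff₀ (by linarith)]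
                linarith
              simpa [rM, rB, rT, i0] using this
  refine ⟨pval S c, ⟨pval_zero c false, ?_⟩, ?_⟩
  · intro j h1 h2
    cases ht : S.ty j with
    | g => exact pval_g h c h1 h2 ht _
    | s =>
      simp only
      rw [pval_s h c h1 h2 ht, pval_s h c h1 h2 ht, if_pos rfl, if_neg (by simp)]
      exact ⟨hcpos j h1 h2, rfl⟩
    | f => exact pval_f h c h1 h2 ht _
  · have hN := h.one_le
    have h1 := (key S.N le_rfl false (Or.inr ⟨by omega, Or.inl ⟨h.last, rfl⟩⟩)).2
    have i0 : S.N ≠ 0 := by omega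
    simp only [rM, rB, rT, i0, if_false, if_true, Bool.false_eq_true] at h1
    have h2 := block_N g h
    obtain ⟨o1, o2, o3, o4, o5⟩ := order_y g hN le_rfl
    by_contra hcon
    rw [not_lt] at hcon
    have : 1 * (y (q3 S.N) - y (r4 S.N)) ≤ pval S c S.N false * (y (q3 S.N) - y (r4 S.N)) :=
      mul_le_mul_of_nonneg_right hcon (by linarith)
    linarith

end Pool.Agent.helper3.SGE
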